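import Pool.Agent.Lib_helper34.BB.Defs

open MeasureTheory ProbabilityTheory Set Metric Function Filter
open scoped ENNReal NNReal

namespace Pool.Agent.BB

section Gen

variable {H : Type} [MetricSpace H] [ProperSpace H] [MeasurableSpace H] [BorelSpace H]

theorem cells_proof (η : ℝ) (hη : 0 < η) :
    ∃ c : ℕ → Set H, (∀ i, MeasurableSet (c i)) ∧ Pairwise (Disjoint on c) ∧
      (⋃ i, c i) = univ ∧ (∀ i, ∀ x ∈ c i, ∀ y ∈ c i, dist x y ≤ η) ∧
      ∀ (x : H) (r : ℝ), {i | (c i ∩ closedBall x r).Nonempty}.Finite := by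
  classical
  rcases isEmpty_or_nonempty H with hE | hN
  · refine ⟨fun _ => ∅, fun _ => MeasurableSet.empty, fun i j _ => by simp [Function.onFun],
      ?_, fun i x hx => (hx.elim : _), fun x r => (hE.elim x : _)⟩
    ext x
    exact hE.elim x
  · let D : ℕ → H := TopologicalSpace.denseSeq H
    have hD : DenseRange D := TopologicalSpace.denseRange_denseSeq H
    let b : ℕ → Set H := fun i => ball (D i) (η / 2)
    have hcov : ∀ x, ∃ i, x ∈ b i := by
      intro x
      obtain ⟨i, hi⟩ := hD.exists_dist_lt x (show (0:ℝ) < η / 2 by positivity)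
      exact ⟨i, hi⟩
    refine ⟨disjointed b, fun i => MeasurableSet.disjointed (fun _ => measurableSet_ball) i,
      disjoint_disjointed b, ?_, ?_, ?_⟩
    · rw [iUnion_disjointed]
      ext x
      simp only [mem_iUnion, mem_univ, iff_true]
      exact hcov x
    · intro i x hx y hy
      have hx' := mem_ball.1 (disjointed_subset b i hx)
      have hy' := mem_ball.1 (disjointed_subset b i hy)
      have := dist_triangle_right x y (D i)
      linarith
    · intro x r
      obtain ⟨t, ht⟩ := (isCompact_closedBall x r).elim_finite_subcover b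
        (fun i => isOpen_ball) (fun y _ => mem_iUnion.2 (hcov y))
      refine (Finset.range (t.sup id + 1)).finite_toSet.subset ?_
      rintro i ⟨y, hy1, hy2⟩
      have h3 := ht hy2
      simp only [mem_iUnion] at h3
      obtain ⟨j, hj, hyj⟩ := h3
      simp only [Finset.coe_range, mem_Iio]
      by_contra hlt
      push Not at hlt
      have hji : j < i := by
        have : j ≤ t.sup id := Finset.le_sup (f := id) hj
        omega
      have hd := disjoint_disjointed b
      have h4 : y ∉ b j := by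
        rw [disjointed_apply] at hy1
        have h5 := hy1.2
        intro h6
        apply h5
        exact Finset.le_sup (f := b) (Finset.mem_Iio.2 hji) h6
      exact h4 hyj

end Gen

section Pois

variable {H : Type*} [MeasurableSpace H] {μ : Measure H} {Ω : Type*} [MeasurableSpace Ω]
  {P : Measure Ω} [IsProbabilityMeasure P] {X : Ω → Set H}

theorem IsPoisson.measurableSet_cnt (hX : IsPoisson P μ X) {B : Set H} (hB : MeasurableSet B)
    (s : Set ℕ∞) : MeasurableSet {ω | cnt (X ω) B ∈ s} :=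
  hX.meas B hB (MeasurableSpace.measurableSet_top)

theorem IsPoisson.ne_zero_le (hX : IsPoisson P μ X) {B : Set H} (hB : MeasurableSet B)
    (hfin : μ B ≠ ∞) : P {ω | cnt (X ω) B ≠ 0} ≤ μ B := by
  have h0 := hX.law B hB hfin 0
  have hm : MeasurableSet {ω | cnt (X ω) B = ((0 : ℕ) : ℕ∞)} :=
    hX.measurableSet_cnt hB {((0 : ℕ) : ℕ∞)}
  have h1 : {ω | cnt (X ω) B ≠ 0} = {ω | cnt (X ω) B = ((0 : ℕ) : ℕ∞)}ᶜ := by
    ext ω
    simp
  rw [h1, prob_compl_eq_one_sub hm, h0]
  simp only [pow_zero, mul_one, Nat.factorial_zero, Nat.cast_one, div_one]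
  rw [tsub_le_iff_right]
  have h2 := Real.add_one_le_exp (-(μ B).toReal)
  calc (1 : ℝ≥0∞) = ENNReal.ofReal 1 := by simp
    _ ≤ ENNReal.ofReal ((μ B).toReal + Real.exp (-(μ B).toReal)) := by
      apply ENNReal.ofReal_le_ofReal
      linarith
    _ = ENNReal.ofReal (μ B).toReal + ENNReal.ofReal (Real.exp (-(μ B).toReal)) :=
      ENNReal.ofReal_add ENNReal.toReal_nonneg (Real.exp_pos _).le
    _ = μ B + ENNReal.ofReal (Real.exp (-(μ B).toReal)) := by
      rw [ENNReal.ofReal_toReal hfin]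

theorem IsPoisson.two_le (hX : IsPoisson P μ X) {B : Set H} (hB : MeasurableSet B)
    (hfin : μ B ≠ ∞) : P {ω | 2 ≤ cnt (X ω) B} ≤ μ B * μ B := by
  have h0 := hX.law B hB hfin 0
  have h1 := hX.law B hB hfin 1
  have hm0 : MeasurableSet {ω | cnt (X ω) B = ((0 : ℕ) : ℕ∞)} :=
    hX.measurableSet_cnt hB {((0 : ℕ) : ℕ∞)}
  have hm1 : MeasurableSet {ω | cnt (X ω) B = ((1 : ℕ) : ℕ∞)} :=
    hX.measurableSet_cnt hB {((1 : ℕ) : ℕ∞)}
  have h2 : {ω | 2 ≤ cnt (X ω) B} =
      ({ω | cnt (X ω) B = ((0 : ℕ) : ℕ∞)} ∪ {ω | cnt (X ω) B = ((1 : ℕ) : ℕ∞)})ᶜ := by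
    ext ω
    simp only [mem_ofPred_eq, Nat.cast_zero, Nat.cast_one, mem_compl_iff, mem_union, not_or]
    generalize cnt (X ω) B = a
    induction a with
    | top => simp
    | coe a =>
      norm_cast
      omega
  have hd : Disjoint {ω | cnt (X ω) B = ((0 : ℕ) : ℕ∞)} {ω | cnt (X ω) B = ((1 : ℕ) : ℕ∞)} := by
    rw [Set.disjoint_left]
    intro ω ha hb
    simp only [mem_ofPred_eq] at ha hb
    rw [ha] at hb
    norm_num at hb
  rw [h2, prob_compl_eq_one_sub (hm0.union hm1), measure_union hd hm1, h0, h1]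
  simp only [pow_zero, mul_one, Nat.factorial_zero, Nat.cast_one, div_one, pow_one,
    Nat.factorial_one]
  rw [tsub_le_iff_right, ← ENNReal.ofReal_add (Real.exp_pos _).le
    (mul_nonneg (Real.exp_pos _).le ENNReal.toReal_nonneg)]
  conv_rhs =>
    rw [← ENNReal.ofReal_toReal hfin]
  rw [← ENNReal.ofReal_mul ENNReal.toReal_nonneg, ← ENNReal.ofReal_add (by positivity)
    (add_nonneg (Real.exp_pos _).le (mul_nonneg (Real.exp_pos _).le ENNReal.toReal_nonneg))]
  have : (1 : ℝ≥0∞) = ENNReal.ofReal 1 := by simp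
  rw [this]
  apply ENNReal.ofReal_le_ofReal
  have h3 := Real.add_one_le_exp (-(μ B).toReal)
  have h4 : 0 ≤ (μ B).toReal := ENNReal.toReal_nonneg
  rw [ENNReal.toReal_ofReal h4]
  nlinarith

/-- all cells of an injective family are nonempty -/
theorem IsPoisson.all_ne_zero_le (hX : IsPoisson P μ X) {m : ℕ} (B : Fin m → Set H)
    (hB : ∀ i, MeasurableSet (B i)) (hd : Pairwise (Disjoint on B)) (hfin : ∀ i, μ (B i) ≠ ∞) :
    P {ω | ∀ i, cnt (X ω) (B i) ≠ 0} ≤ ∏ i, μ (B i) := by
  have hind := hX.indep m B hB hd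
  have h1 := hind.measure_inter_preimage_eq_mul Finset.univ (sets := fun _ => {0}ᶜ)
    (fun i _ => MeasurableSpace.measurableSet_top)
  have h2 : {ω | ∀ i, cnt (X ω) (B i) ≠ 0} =
      ⋂ i ∈ Finset.univ, (fun ω => cnt (X ω) (B i)) ⁻¹' ({0}ᶜ : Set ℕ∞) := by
    ext ω
    simp
  rw [h2, h1]
  exact Finset.prod_le_prod' fun i _ => hX.ne_zero_le (hB i) (hfin i)

theorem IsPoisson.ae_cnt_ne_top (hX : IsPoisson P μ X) {B : Set H} (hB : MeasurableSet B)
    (hfin : μ B ≠ ∞) : ∀ᵐ ω ∂P, cnt (X ω) B ≠ ⊤ := by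
  have h1 : P (⋃ k : ℕ, {ω | cnt (X ω) B = k}) = 1 := by
    rw [measure_iUnion]
    · simp only [hX.law B hB hfin]
      have h2 := poissonPMFRealSum (μ B).toNNReal
      rw [← ENNReal.ofReal_tsum_of_nonneg]
      · have h3 : (∑' k : ℕ, Real.exp (-(μ B).toReal) * (μ B).toReal ^ k / (k.factorial : ℝ)) = 1 :=
          h2.tsum_eq
        rw [h3]
        simp
      · intro k
        positivity
      · exact h2.summable
    · intro i j hij
      rw [Function.onFun, Set.disjoint_left]
      intro ω ha hb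
      simp only [mem_ofPred_eq] at ha hb
      rw [ha] at hb
      exact hij (by exact_mod_cast hb)
    · intro k
      exact hX.measurableSet_cnt hB {(k : ℕ∞)}
  have h2 : MeasurableSet (⋃ k : ℕ, {ω | cnt (X ω) B = k}) :=
    MeasurableSet.iUnion fun k => hX.measurableSet_cnt hB {(k : ℕ∞)}
  have h3 : ∀ᵐ ω ∂P, ω ∈ ⋃ k : ℕ, {ω | cnt (X ω) B = k} := by
    rw [← prob_compl_eq_zero_iff h2] at h1
    exact h1
  filter_upwards [h3] with ω hω
  simp only [mem_iUnion, mem_ofPred_eq] at hω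
  obtain ⟨k, hk⟩ := hω
  rw [hk]
  exact ENat.natCast_ne_top k

end Pois

theorem lf_proof {H : Type} [MetricSpace H] [ProperSpace H] [MeasurableSpace H] [BorelSpace H]
    {μ : Measure H} (hμ : Nice μ) {Ω : Type*} [MeasurableSpace Ω]
    (P : Measure Ω) [IsProbabilityMeasure P] (X : Ω → Set H) (hX : IsPoisson P μ X) :
    ∀ᵐ ω ∂P, ∀ (x : H) (r : ℝ), (X ω ∩ closedBall x r).Finite := by
  rcases isEmpty_or_nonempty H with hE | ⟨⟨o⟩⟩
  · exact Eventually.of_forall fun ω x => hE.elim x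
  · have h1 : ∀ N : ℕ, ∀ᵐ ω ∂P, cnt (X ω) (closedBall o N) ≠ ⊤ := fun N =>
      hX.ae_cnt_ne_top measurableSet_closedBall (hμ.fin o N).ne
    filter_upwards [ae_all_iff.2 h1] with ω hω x r
    obtain ⟨N, hN⟩ := exists_nat_ge (r + dist x o)
    have h2 := hω N
    rw [cnt, Set.encard_ne_top_iff] at h2
    refine h2.subset (inter_subset_inter_right _ ?_)
    exact closedBall_subset_closedBall' (by linarith)

end Pool.Agent.BB
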