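import Mathlib

/-!
Poisson balloon process in hyperbolic space (MP_8d7770_pr): definitions.
-/

open MeasureTheory ProbabilityTheory Set Metric Function
open scoped ENNReal NNReal

namespace Pool.Agent.BB

/-- The upper half space model of hyperbolic space of dimension n + 1: the points of the Euclidean
space of dimension n + 1 whose coordinate number 0 (the height) is positive. -/
def HSpace (n : ℕ) : Type := {z : EuclideanSpace ℝ (Fin (n + 1)) // 0 < z 0}

instance (n : ℕ) : MeasurableSpace (HSpace n) :=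
  inferInstanceAs (MeasurableSpace {z : EuclideanSpace ℝ (Fin (n + 1)) // 0 < z 0})

/-- The Riemannian distance of the half space model with constant curvature -κ. -/
noncomputable def hdist {n : ℕ} (κ : ℝ) (z w : HSpace n) : ℝ :=
  2 * Real.arsinh (dist z.1 w.1 / (2 * √(z.1 0 * w.1 0))) / √κ

/-- The Riemannian volume measure of the half space model with constant curvature -κ: the density
is (√κ * height) ^ (-(n + 1)) with respect to Lebesgue measure. -/
noncomputable def hvol (κ : ℝ) (n : ℕ) : Measure (HSpace n) :=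
  (Measure.comap (Subtype.val : {z : EuclideanSpace ℝ (Fin (n + 1)) // 0 < z 0} →
    EuclideanSpace ℝ (Fin (n + 1))) volume).withDensity
    (fun z => ENNReal.ofReal ((√κ * z.1 0) ^ (n + 1))⁻¹)

section General

variable {H : Type*}

/-- The number of points of the configuration C in the set B. -/
noncomputable def cnt (C B : Set H) : ℕ∞ := (C ∩ B).encard

/-- X is (the support of) a Poisson point process with intensity measure μ: the numbers of points
in measurable sets are random variables, Poisson distributed with mean μ B if μ B is finite, and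
independent for pairwise disjoint sets. -/
structure IsPoisson {Ω : Type*} [MeasurableSpace Ω] [MeasurableSpace H] (P : Measure Ω)
    (μ : Measure H) (X : Ω → Set H) : Prop where
  meas : ∀ B, MeasurableSet B → Measurable fun o => cnt (X o) B
  law : ∀ B, MeasurableSet B → μ B ≠ ∞ → ∀ k : ℕ, P {o | cnt (X o) B = k} =
    ENNReal.ofReal (Real.exp (-(μ B).toReal) * (μ B).toReal ^ k / k.factorial)
  indep : ∀ (m : ℕ) (B : Fin m → Set H), (∀ i, MeasurableSet (B i)) →
    Pairwise (Disjoint on B) → iIndepFun (fun i o => cnt (X o) (B i)) P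

/-- The balloon evolution started from the configuration C: A t is the set of centres of balloons
present at time t. A balloon of C is present at time t if and only if it has not popped at a time
at most t, and two balloons pop when they touch, that is at the time ρ x y / 2, if both of them
have been present at all earlier times. -/
def IsEvolution (ρ : H → H → ℝ) (C : Set H) (A : ℝ≥0 → Set H) : Prop :=
  ∀ (t : ℝ≥0) (x : H), x ∈ A t ↔ x ∈ C ∧ ∀ y ∈ C, y ≠ x → ρ x y ≤ 2 * t →
    ¬ ∀ s : ℝ≥0, 2 * (s : ℝ) < ρ x y → x ∈ A s ∧ y ∈ A s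

/-- The set of points whose distance to the set A t is at most t. -/
def covered (ρ : H → H → ℝ) (A : ℝ≥0 → Set H) (t : ℝ≥0) : Set H :=
  {x | ∀ ε : ℝ, 0 < ε → ∃ z ∈ A t, ρ x z < t + ε}

end General

/-! Definitions used in the proof only. -/

/-- Regularity of the intensity measure. -/
structure Nice {H : Type*} [MetricSpace H] [MeasurableSpace H] (μ : Measure H) : Prop where
  fin : ∀ (x : H) (r : ℝ), μ (closedBall x r) < ∞
  ann : ∀ L η : ℝ, 0 < η → ∃ ε > 0, ∀ (x : H) (l : ℝ), l ≤ L →
    μ {y | l ≤ dist x y ∧ dist x y ≤ l + ε} ≤ ENNReal.ofReal η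

/-- The good configurations. -/
structure Good {H : Type*} [MetricSpace H] (C : Set H) : Prop where
  lf : ∀ (x : H) (r : ℝ), (C ∩ closedBall x r).Finite
  noTie : ∀ x ∈ C, ∀ y ∈ C, ∀ z ∈ C, x ≠ y → x ≠ z → y ≠ z → dist x y ≠ dist x z
  noChain : ¬ ∃ x y : ℕ → H, (∀ i, x i ∈ C ∧ y i ∈ C ∧ x i ≠ y i) ∧
    (∀ i, (x (i + 1) = x i ∨ x (i + 1) = y i) ∧
      dist (x (i + 1)) (y (i + 1)) < dist (x i) (y i))

/-- The balloons x and y pop each other (least fixed point). -/
inductive Pop {H : Type*} [MetricSpace H] (C : Set H) : H → H → Prop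
  | mk (x y : H) (w v : H → H) (hx : x ∈ C) (hy : y ∈ C) (hxy : x ≠ y)
      (h1 : ∀ z, z ∈ C → z ≠ x → z ≠ y → dist x z ≤ dist x y → Pop C z (w z))
      (h1' : ∀ z, z ∈ C → z ≠ x → z ≠ y → dist x z ≤ dist x y → dist z (w z) < dist x z)
      (h2 : ∀ z, z ∈ C → z ≠ x → z ≠ y → dist y z ≤ dist x y → Pop C z (v z))
      (h2' : ∀ z, z ∈ C → z ≠ x → z ≠ y → dist y z ≤ dist x y → dist z (v z) < dist y z) :
      Pop C x y

/-- The balloons which are alive at time t. -/
def alive {H : Type*} [MetricSpace H] (C : Set H) (t : ℝ≥0) : Set H :=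
  {x | x ∈ C ∧ ∀ y, Pop C x y → ¬ dist x y ≤ 2 * t}

/-- C' is a small perturbation of C in the ball of radius R. -/
def Near {H : Type*} [MetricSpace H] (C C' : Set H) (o : H) (R ε : ℝ) : Prop :=
  (∀ x' ∈ C', dist o x' ≤ R → ∃ x ∈ C, dist x x' < ε) ∧
  (∀ x ∈ C, dist o x ≤ R → ∃ x' ∈ C', dist x x' < ε) ∧
  (∀ x' ∈ C', ∀ x'' ∈ C', dist o x' ≤ R → dist o x'' ≤ R → ∀ x ∈ C,
    dist x x' < ε → dist x x'' < ε → x' = x'')

/-- Strict fundamental domain of an action θ. -/
structure FD {Γ H : Type*} [Group Γ] (θ : Γ →* Equiv.Perm H) (F : Set H) : Prop where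
  ex : ∀ z, ∃ γ, θ γ z ∈ F
  uniq : ∀ z γ γ', θ γ z ∈ F → θ γ' z ∈ F → γ = γ'

/-- C and C' have the same counts in the first k * k cells. -/
def PatEq {Γ H : Type*} [Group Γ] (θ : Γ →* Equiv.Perm H) (e : ℕ → Γ) (q : ℕ → Set H) (k : ℕ)
    (C C' : Set H) : Prop :=
  ∀ i < k, ∀ j < k, cnt C (θ (e i) ⁻¹' q j) = cnt C' (θ (e i) ⁻¹' q j)

/-- The finite set W ∪ bW in the free group on the generators of W and one more generator b. -/
noncomputable def VV {α : Type} (W : Finset (FreeGroup α)) : Set (FreeGroup (Option α)) :=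
  {g | ∃ w ∈ W, g = FreeGroup.map some w ∨ g = FreeGroup.of none * FreeGroup.map some w}

end Pool.Agent.BB
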