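import Pool.Agent.Lib_helper34.BB.MAIN
import Pool.Agent.Lib_helper28.BB.HYPM
import Pool.Agent.Lib_helper28.BB.COV
import Pool.Agent.Lib_helper22.BB.HOMOG
import Pool.Agent.Lib_helper22.BB.NICE
import Pool.Agent.Lib_helper99.BB.SCH

open MeasureTheory ProbabilityTheory Set Metric Function Filter
open scoped ENNReal NNReal

namespace Pool.Agent.BB

theorem cnt_image' {H : Type*} (g : Equiv.Perm H) (C B : Set H) :
    cnt (g '' C) B = cnt C (g ⁻¹' B) := by
  unfold cnt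
  rw [← g.injective.encard_image (C ∩ g ⁻¹' B), image_inter_preimage]

/-- scaling of an evolution -/
theorem evol_scale {H : Type*} (ρ : H → H → ℝ) (s : ℝ≥0) (hs : 0 < s) (C : Set H)
    (A : ℝ≥0 → Set H) :
    IsEvolution (fun x y => ρ x y / (s : ℝ)) C A ↔ IsEvolution ρ C (fun t => A (t / s)) := by
  have hs' : (0 : ℝ) < s := hs
  have key : ∀ (t : ℝ≥0) (x y : H), (ρ x y / (s : ℝ) ≤ 2 * ((t / s : ℝ≥0) : ℝ) ↔
      ρ x y ≤ 2 * (t : ℝ)) := by
    intro t x y
    rw [NNReal.coe_div, ← mul_div_assoc, div_le_div_iff_of_pos_right hs']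
  have key2 : ∀ (x y : H), (∀ r : ℝ≥0, 2 * (r : ℝ) < ρ x y / (s : ℝ) → x ∈ A r ∧ y ∈ A r) ↔
      (∀ r : ℝ≥0, 2 * (r : ℝ) < ρ x y → x ∈ A (r / s) ∧ y ∈ A (r / s)) := by
    intro x y
    constructor
    · intro h r hr
      apply h
      rw [NNReal.coe_div, ← mul_div_assoc, div_lt_div_iff_of_pos_right hs']
      exact hr
    · intro h r hr
      have := h (r * s) (by
        rw [lt_div_iff₀ hs'] at hr
        rw [NNReal.coe_mul]
        linarith)
      rwa [mul_div_cancel_right₀ _ hs.ne'] at this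
  constructor
  · intro h t x
    rw [h (t / s) x]
    constructor
    · rintro ⟨h1, h2⟩
      exact ⟨h1, fun y hy hyx hd => by
        have := h2 y hy hyx ((key t x y).2 hd)
        rwa [key2] at this⟩
    · rintro ⟨h1, h2⟩
      exact ⟨h1, fun y hy hyx hd => by
        have := h2 y hy hyx ((key t x y).1 hd)
        rwa [key2]⟩
  · intro h t x
    have h3 := h (t * s) x
    simp only [mul_div_cancel_right₀ _ hs.ne'] at h3
    rw [h3]
    have key3 : ∀ y, (ρ x y / (s : ℝ) ≤ 2 * (t : ℝ) ↔ ρ x y ≤ 2 * ((t * s : ℝ≥0) : ℝ)) := by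
      intro y
      have := key (t * s) x y
      rwa [mul_div_cancel_right₀ _ hs.ne'] at this
    constructor
    · rintro ⟨h1, h2⟩
      exact ⟨h1, fun y hy hyx hd => by
        have := h2 y hy hyx ((key3 y).1 hd)
        rwa [key2]⟩
    · rintro ⟨h1, h2⟩
      exact ⟨h1, fun y hy hyx hd => by
        have := h2 y hy hyx ((key3 y).2 hd)
        rwa [key2] at this⟩

theorem poisson_image {H : Type*} [MeasurableSpace H] {μ : Measure H} {Ω : Type*}
    [MeasurableSpace Ω] (P : Measure Ω) (X : Ω → Set H) (hX : IsPoisson P μ X)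
    (g : Equiv.Perm H) (hg : MeasurePreserving g μ μ) :
    IsPoisson P μ (fun ω => g '' X ω) := by
  refine ⟨fun B hB => ?_, fun B hB hfin k => ?_, fun m B hB hd => ?_⟩
  · simp only [cnt_image']
    exact hX.meas _ (hg.measurable hB)
  · simp only [cnt_image']
    have h1 : μ (g ⁻¹' B) = μ B := hg.measure_preimage hB.nullMeasurableSet
    rw [hX.law _ (hg.measurable hB) (by rwa [h1]) k, h1]
  · simp only [cnt_image']
    exact hX.indep m (fun i => g ⁻¹' B i) (fun i => hg.measurable (hB i))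
      (fun i j hij => (hd hij).preimage g)

theorem alive_antitone_fin {H : Type*} [MetricSpace H] (C : Set H) {s t : ℝ≥0} (h : s ≤ t) :
    alive C t ⊆ alive C s := by
  rintro x ⟨h1, h2⟩
  refine ⟨h1, fun y hy hd => h2 y hy (hd.trans ?_)⟩
  have : (s : ℝ) ≤ t := h
  linarith

theorem hvol_smul (κ : ℝ) (hκ : 0 < κ) (n : ℕ) :
    hvol κ n = ENNReal.ofReal ((√κ) ^ (n + 1))⁻¹ • hvol 1 n := by
  have h := withDensity_smul' (r := ENNReal.ofReal ((√κ) ^ (n + 1))⁻¹)
    (μ := Measure.comap (Subtype.val : {z : EuclideanSpace ℝ (Fin (n + 1)) // 0 < z 0} →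
      EuclideanSpace ℝ (Fin (n + 1))) volume)
    (fun z => ENNReal.ofReal ((√1 * z.1 0) ^ (n + 1))⁻¹) ENNReal.ofReal_ne_top
  refine Eq.trans ?_ h
  refine congrArg (Measure.withDensity _) ?_
  funext z
  simp only [Pi.smul_apply, smul_eq_mul, Real.sqrt_one, one_mul]
  rw [← ENNReal.ofReal_mul (by positivity), mul_pow, mul_inv]

/-- the numerical estimate -/
theorem phi_bound (n : ℕ) (δ c : ℝ) (hδ : (n : ℝ) / 2 < δ) (hc : 0 < c) :
    ∃ a C : ℝ, (n : ℝ) < a ∧ 0 < C ∧ ∀ (t : ℝ) (w : ℝ), 1 ≤ w → c * Real.exp (δ * t) ≤ w →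
      (1 + 2 * Real.log w) / w ^ 2 ≤ C * Real.exp (-(a * t)) := by
  have hn : (0 : ℝ) ≤ n := Nat.cast_nonneg n
  have hδ0 : 0 < δ := by linarith [div_nonneg hn (by norm_num : (0:ℝ) ≤ 2)]
  -- η with δ (2 - η) > n
  obtain ⟨η, hη0, hη⟩ : ∃ η : ℝ, 0 < η ∧ (n : ℝ) < δ * (2 - η) := by
    refine ⟨(2 * δ - n) / (2 * δ), by apply div_pos <;> linarith, ?_⟩
    have : δ * (2 - (2 * δ - n) / (2 * δ)) = (2 * δ + n) / 2 := by
      field_simp
      ring
    rw [this]
    linarith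
  refine ⟨δ * (2 - η), (1 + 2 / η) * c ^ (η - 2), hη, by positivity, ?_⟩
  intro t w hw hcw
  have hw0 : 0 < w := by linarith
  have hη2 : η - 2 < 0 := by
    by_contra h
    push Not at h
    nlinarith
  have h1 : 1 + 2 * Real.log w ≤ (1 + 2 / η) * w ^ η := by
    have h2 : Real.log w ≤ w ^ η / η := Real.log_le_rpow_div hw0.le hη0
    have h3 : 1 ≤ w ^ η := Real.one_le_rpow hw hη0.le
    calc 1 + 2 * Real.log w ≤ w ^ η + 2 * (w ^ η / η) := by linarith
      _ = (1 + 2 / η) * w ^ η := by field_simp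
  calc (1 + 2 * Real.log w) / w ^ 2 ≤ ((1 + 2 / η) * w ^ η) / w ^ 2 := by gcongr
    _ = (1 + 2 / η) * w ^ (η - 2) := by
      rw [Real.rpow_sub hw0, Real.rpow_two, mul_div_assoc]
    _ ≤ (1 + 2 / η) * (c * Real.exp (δ * t)) ^ (η - 2) := by
      gcongr ?_ * ?_
      exact Real.rpow_le_rpow_of_nonpos (by positivity) hcw hη2.le
    _ = (1 + 2 / η) * c ^ (η - 2) * Real.exp (-(δ * (2 - η) * t)) := by
      have he : Real.exp (δ * t * (η - 2)) = Real.exp (-(δ * (2 - η) * t)) := by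
        congr 1
        ring
      rw [Real.mul_rpow hc.le (Real.exp_pos _).le, ← Real.exp_mul, he]
      ring

theorem final_proof (n : ℕ) (hn : 1 ≤ n) : ∃ lam : ℝ, 1 < lam ∧ ∀ (κ : ℝ), 0 < κ →
    ∀ {Ω : Type*} [MeasurableSpace Ω] (P : Measure Ω) [IsProbabilityMeasure P]
    (X : Ω → Set (HSpace n)), IsPoisson P (hvol κ n) X →
    ∀ᵐ ω ∂P, (∃! A : ℝ≥0 → Set (HSpace n), IsEvolution (hdist κ) (X ω) A) ∧
      ∀ A : ℝ≥0 → Set (HSpace n), IsEvolution (hdist κ) (X ω) A → ∀ x,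
        (∃ T : ℝ≥0, ∀ t, T ≤ t → x ∉ covered (hdist κ) A t) ∧
        (∃ T : ℝ≥0, ∀ t, T ≤ t → ∀ z ∈ A t, lam * (t : ℝ) ≤ hdist κ x z) := by
  classical
  -- Schottky data
  obtain ⟨α, _, _, θ, F, o, r, δ, c, hiso, hmp, hF, hFD, hlf, hr, hball, hδ, hc, hW⟩ :=
    schottky_proof n hn
  obtain ⟨a, C₁, ha, hC₁, hphi⟩ := phi_bound n δ c hδ hc
  have hn0 : (0 : ℝ) < n := by exact_mod_cast hn
  obtain ⟨lam, hlam1, hlam⟩ : ∃ lam : ℝ, 1 < lam ∧ n * lam < a := by
    refine ⟨(1 + a / n) / 2, ?_, ?_⟩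
    · have : 1 < a / n := by rwa [one_lt_div hn0]
      linarith
    · have : n * ((1 + a / n) / 2) = (n + a) / 2 := by field_simp
      rw [this]
      linarith
  refine ⟨lam, hlam1, fun κ hκ Ω _ P _ X hX => ?_⟩
  obtain ⟨mt, hmt, hprop, hborel⟩ := hyp_metric_proof n
  letI := mt
  haveI := hprop
  haveI := hborel
  set μ : Measure (HSpace n) := hvol κ n with hμdef
  have hsm := hvol_smul κ hκ n
  have hpres : ∀ g : Equiv.Perm (HSpace n), MeasurePreserving g (hvol 1 n) (hvol 1 n) →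
      MeasurePreserving g μ μ := by
    intro g hg
    rw [hμdef, hsm]
    exact hg.smul_measure _
  have hnice : Nice μ := by
    obtain ⟨h1, h2⟩ := hyp_nice_proof n κ hκ
    refine ⟨fun x r => ?_, fun L η hη => ?_⟩
    · have : closedBall x r = {y | hdist 1 x y ≤ r} := by
        ext y
        rw [mem_closedBall, dist_comm, hmt]
        rfl
      rw [this]
      exact h1 x r
    · obtain ⟨ε, hε, h⟩ := h2 L η hη
      refine ⟨ε, hε, fun x l hl => ?_⟩
      simp only [hmt]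
      exact h x l hl
  have hiso' : ∀ γ, Isometry (θ γ) := by
    intro γ
    refine Isometry.of_dist_eq fun z w => ?_
    rw [hmt, hmt, hiso]
  -- the bound near o, for every Poisson process
  set C₀ : ℝ := dist o (θ (FreeGroup.of none) o) + r with hC₀
  have hC₀0 : 0 < C₀ := by positivity
  have hb1 : ∀ t : ℝ≥0, C₀ ≤ t → ∀ Y : Ω → Set (HSpace n), IsPoisson P μ Y →
      P {ω | ∃ x ∈ ball o r, x ∈ alive (Y ω) t} ≤
        ENNReal.ofReal (C₁ * Real.exp (-(a * (t - C₀)))) := by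
    intro t ht Y hY
    obtain ⟨W, hWne, hWc, hWd⟩ := hW (t - C₀) (by linarith)
    have h1 := main_proof hnice θ hiso' (fun γ => hpres _ (hmp γ)) F hF hFD
      (by simpa only [hmt] using hlf) o r hr
      (fun z hz => hball z (by rw [← hmt, dist_comm]; exact hz)) t W hWne
      (fun w hw => by
        have := hWd w hw
        rw [← hmt] at this
        linarith) P Y hY
    refine h1.trans (ENNReal.ofReal_le_ofReal ?_)
    exact hphi (t - C₀) W.card (by exact_mod_cast hWne.card_pos) hWc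
  -- everywhere
  have hb2 : ∀ t : ℝ≥0, C₀ ≤ t → ∀ y : HSpace n,
      P {ω | ∃ x ∈ ball y r, x ∈ alive (X ω) t} ≤
        ENNReal.ofReal (C₁ * Real.exp (-(a * (t - C₀)))) := by
    intro t ht y
    obtain ⟨g, hgo, hgd, hgm⟩ := hyp_homog_proof n y o
    have hgi : Isometry g := Isometry.of_dist_eq fun z w => by rw [hmt, hmt, hgd]
    have h1 := hb1 t ht (fun ω => g '' X ω) (poisson_image P X hX g (hpres g hgm))
    refine le_trans (measure_mono ?_) h1
    rintro ω ⟨x, hx, hxa⟩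
    refine ⟨g x, ?_, ?_⟩
    · rw [mem_ball, ← hgo, hgi.dist_eq]
      exact hx
    · rw [alive_image_proof g hgi]
      exact mem_image_of_mem _ hxa
  -- in large balls
  obtain ⟨K, hK, hcov⟩ := cover_proof n hn o r hr
  have hb3 : ∀ t : ℝ≥0, C₀ ≤ t → ∀ R : ℝ, 0 ≤ R →
      P {ω | ∃ x, dist o x ≤ R ∧ x ∈ alive (X ω) t} ≤
        ENNReal.ofReal (K * Real.exp (n * R) * (C₁ * Real.exp (-(a * (t - C₀))))) := by
    intro t ht R hR
    obtain ⟨Y, hYc, hY⟩ := hcov R hR
    calc P {ω | ∃ x, dist o x ≤ R ∧ x ∈ alive (X ω) t}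
        ≤ P (⋃ y ∈ Y, {ω | ∃ x ∈ ball y r, x ∈ alive (X ω) t}) := by
          apply measure_mono
          rintro ω ⟨x, hx, hxa⟩
          rw [hmt] at hx
          obtain ⟨y, hy, hyx⟩ := hY x hx
          simp only [mem_iUnion]
          refine ⟨y, hy, x, ?_, hxa⟩
          rw [mem_ball, dist_comm, hmt]
          exact hyx
      _ ≤ ∑ y ∈ Y, P {ω | ∃ x ∈ ball y r, x ∈ alive (X ω) t} :=
          measure_biUnion_finset_le _ _
      _ ≤ ∑ _y ∈ Y, ENNReal.ofReal (C₁ * Real.exp (-(a * (t - C₀)))) :=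
          Finset.sum_le_sum fun y _ => hb2 t ht y
      _ = ENNReal.ofReal (Y.card * (C₁ * Real.exp (-(a * (t - C₀))))) := by
          rw [Finset.sum_const, nsmul_eq_mul, ENNReal.ofReal_mul (p := (Y.card : ℝ)) (by positivity),
            ENNReal.ofReal_natCast]
      _ ≤ _ := by
          apply ENNReal.ofReal_le_ofReal
          gcongr
  -- Borel-Cantelli
  have hBC : ∀ N : ℕ, ∀ᵐ ω ∂P, ∀ᶠ m : ℕ in atTop,
      ¬ ∃ x, dist o x ≤ lam * (m + 1) + N ∧ x ∈ alive (X ω) (m : ℝ≥0) := by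
    intro N
    obtain ⟨m₀, hm₀⟩ := exists_nat_ge C₀
    let s : ℕ → Set Ω := fun j => {ω | ∃ x, dist o x ≤ lam * ((m₀ + j : ℕ) + 1) + N ∧
      x ∈ alive (X ω) ((m₀ + j : ℕ) : ℝ≥0)}
    have hs : ∀ j, P (s j) ≤ ENNReal.ofReal (K * C₁ * Real.exp (n * (lam * (m₀ + 1) + N) +
        a * C₀ - a * m₀) * (Real.exp (-(a - n * lam))) ^ j) := by
      intro j
      have h1 := hb3 ((m₀ + j : ℕ) : ℝ≥0) (by push_cast; linarith [Nat.cast_nonneg (α := ℝ) j])
        (lam * ((m₀ + j : ℕ) + 1) + N) (by positivity)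
      refine h1.trans (le_of_eq ?_)
      congr 1
      rw [← Real.exp_nat_mul]
      push_cast
      rw [show K * Real.exp (n * (lam * ((m₀ + j) + 1) + N)) *
        (C₁ * Real.exp (-(a * (m₀ + j - C₀)))) =
        K * C₁ * (Real.exp (n * (lam * ((m₀ + j) + 1) + N)) *
        Real.exp (-(a * (m₀ + j - C₀)))) by ring,
        mul_assoc (K * C₁), ← Real.exp_add, ← Real.exp_add]
      congr 2
      ring
    have hsum : ∑' j, P (s j) ≠ ∞ := by
      refine ne_top_of_le_ne_top ?_ (ENNReal.tsum_le_tsum hs)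
      rw [← ENNReal.ofReal_tsum_of_nonneg (fun j => by positivity)]
      · exact ENNReal.ofReal_ne_top
      · apply Summable.mul_left
        apply summable_geometric_of_lt_one (Real.exp_pos _).le
        rw [Real.exp_lt_one_iff]
        linarith
    filter_upwards [ae_eventually_notMem hsum] with ω hω
    rw [eventually_atTop] at hω ⊢
    obtain ⟨j₀, hj₀⟩ := hω
    refine ⟨m₀ + j₀, fun m hm hcon => ?_⟩
    obtain ⟨j, rfl⟩ : ∃ j, m = m₀ + j := ⟨m - m₀, by omega⟩
    exact hj₀ j (by omega) hcon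
  have hgood : ∀ᵐ ω ∂P, Good (X ω) := by
    filter_upwards [lf_proof hnice P X hX, tie_proof hnice P X hX, chain_proof hnice P X hX]
      with ω h1 h2 h3
    exact ⟨h1, h2, h3⟩
  filter_upwards [hgood, ae_all_iff.2 hBC] with ω hG hω
  -- scaling
  obtain ⟨hev, huniq⟩ := evol_proof hG
  set s : ℝ≥0 := ⟨√κ, Real.sqrt_nonneg κ⟩ with hsdef
  have hs : 0 < s := Real.sqrt_pos.2 hκ
  have hss : (s : ℝ) = √κ := rfl
  have hrho : (hdist κ : HSpace n → HSpace n → ℝ) = fun x y => dist x y / (s : ℝ) := by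
    funext x y
    rw [hmt, hss]
    simp only [hdist, Real.sqrt_one, div_one]
  rw [hrho]
  have huA : ∀ A : ℝ≥0 → Set (HSpace n), IsEvolution (fun x y => dist x y / (s : ℝ)) (X ω) A →
      ∀ t, A t = alive (X ω) (t * s) := by
    intro A hA t
    have h1 := huniq _ ((evol_scale dist s hs (X ω) A).1 hA)
    have h2 := congrFun h1 (t * s)
    simpa [mul_div_cancel_right₀ _ hs.ne'] using h2
  refine ⟨⟨fun t => alive (X ω) (t * s), ?_, ?_⟩, ?_⟩
  · refine (evol_scale dist s hs (X ω) _).2 ?_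
    have : (fun t : ℝ≥0 => alive (X ω) (t / s * s)) = alive (X ω) := by
      funext t
      rw [div_mul_cancel₀ _ hs.ne']
    simp only [this]
    exact hev
  · intro A hA
    funext t
    exact huA A hA t
  · intro A hA x
    have hlast : ∃ T : ℝ≥0, ∀ t, T ≤ t → ∀ z ∈ A t, lam * (t : ℝ) ≤ dist x z / (s : ℝ) := by
      obtain ⟨N, hN⟩ := exists_nat_ge (dist o x)
      obtain ⟨M, hM⟩ := eventually_atTop.1 (hω N)
      refine ⟨(M : ℝ≥0) / s, fun t ht z hz => ?_⟩
      rw [huA A hA] at hz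
      set u : ℝ≥0 := t * s with hu
      have hs' : (0 : ℝ) < s := hs
      rw [le_div_iff₀ hs', mul_assoc, ← NNReal.coe_mul, ← hu]
      by_contra hlt
      push Not at hlt
      have hMu : (M : ℝ≥0) ≤ u := by
        rw [hu]
        calc (M : ℝ≥0) = M / s * s := by rw [div_mul_cancel₀ _ hs.ne']
          _ ≤ t * s := by gcongr
      have hm1 : ((⌊u⌋₊ : ℕ) : ℝ≥0) ≤ u := Nat.floor_le bot_le
      have hm2 : u < (⌊u⌋₊ : ℕ) + 1 := Nat.lt_floor_add_one u
      have hm3 : M ≤ ⌊u⌋₊ := Nat.le_floor hMu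
      refine hM ⌊u⌋₊ hm3 ⟨z, ?_, alive_antitone_fin _ hm1 hz⟩
      have hm2' : (u : ℝ) < (⌊u⌋₊ : ℕ) + 1 := by exact_mod_cast hm2
      calc dist o z ≤ dist o x + dist x z := dist_triangle _ _ _
        _ ≤ lam * ((⌊u⌋₊ : ℕ) + 1) + N := by nlinarith
    refine ⟨?_, hlast⟩
    obtain ⟨T, hT⟩ := hlast
    refine ⟨max T 1, fun t ht hcov => ?_⟩
    have ht1 : (1 : ℝ) ≤ t := by exact_mod_cast (le_max_right _ _).trans ht
    obtain ⟨z, hz, hxz⟩ := hcov ((lam - 1) * t) (by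
      have : 0 < lam - 1 := by linarith
      positivity)
    have h1 := hT t ((le_max_left _ _).trans ht) z hz
    have h2 : dist x z / (s : ℝ) < t + (lam - 1) * t := hxz
    have h3 : (t : ℝ) + (lam - 1) * t = lam * t := by ring
    linarith

end Pool.Agent.BB
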