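import Pool.Agent.Lib_helper34.BB.Defs

open MeasureTheory ProbabilityTheory Set Metric Function
open scoped ENNReal NNReal

namespace Pool.Agent.BB

/-- The action on Fin M × Q given by ψ and the permutations τ: the generator some a acts as
(v, q) ↦ (v, ψ a q) and the generator none as (v, q) ↦ (τ q v, ψ none q). -/
noncomputable def liftAct {α Q : Type} [Group Q] (ψ : FreeGroup (Option α) →* Q) (M : ℕ)
    (τ : Q → Equiv.Perm (Fin M)) : FreeGroup (Option α) →* Equiv.Perm (Fin M × Q) :=
  FreeGroup.lift (fun i => match i with
    | some a =>
      { toFun := fun x => (x.1, ψ (FreeGroup.of (some a)) * x.2)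
        invFun := fun x => (x.1, (ψ (FreeGroup.of (some a)))⁻¹ * x.2)
        left_inv := fun x => by simp
        right_inv := fun x => by simp }
    | none =>
      { toFun := fun x => (τ x.2 x.1, ψ (FreeGroup.of none) * x.2)
        invFun := fun x => ((τ ((ψ (FreeGroup.of none))⁻¹ * x.2)).symm x.1,
          (ψ (FreeGroup.of none))⁻¹ * x.2)
        left_inv := fun x => by simp
        right_inv := fun x => by simp })

end Pool.Agent.BB
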