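import Pool.Agent.Lib_helper34.BB.Lift
import Pool.Agent.Lib_helper22.BB.RF
import Pool.Agent.Lib_helper20.BB.BIN
import Pool.Agent.Lib_helper86.BB.CNT
import Pool.Agent.Lib_helper86.BB.CONC

open MeasureTheory ProbabilityTheory Set Metric Function
open scoped ENNReal NNReal

namespace Pool.Agent.BB

theorem liftAct_snd {α Q : Type} [Group Q] (ψ : FreeGroup (Option α) →* Q) (M : ℕ)
    (τ : Q → Equiv.Perm (Fin M)) (g : FreeGroup (Option α)) (x : Fin M × Q) :
    (liftAct ψ M τ g x).2 = ψ g * x.2 := by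
  induction g using FreeGroup.induction_on generalizing x with
  | C1 => simp
  | of i =>
    cases i <;> simp [liftAct]
  | inv_of i ih =>
    have h := ih ((liftAct ψ M τ (FreeGroup.of i))⁻¹ x)
    rw [map_inv, map_inv]
    rw [← Equiv.Perm.mul_apply, mul_inv_cancel, Equiv.Perm.one_apply] at h
    rw [h]
    simp
  | mul g h ihg ihh =>
    rw [map_mul, map_mul, Equiv.Perm.mul_apply, ihg, ihh, mul_assoc]

theorem lift_proof {α : Type} [Fintype α] [DecidableEq α] {Ω : Type*} [MeasurableSpace Ω]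
    (P : Measure Ω) [IsProbabilityMeasure P] {L : Type} [MeasurableSpace L] [Countable L]
    [MeasurableSingletonClass L] (X : FreeGroup (Option α) → Ω → L)
    (hX : ∀ γ, Measurable (X γ)) (hind : iIndepFun X P) (hid : ∀ γ, P.map (X γ) = P.map (X 1))
    (K : Finset (FreeGroup (Option α))) (T : Set (K → L))
    (W : Finset (FreeGroup α)) (hW : W.Nonempty)
    (hconf : ∀ g ∈ VV W, ∀ g' ∈ VV W, g ≠ g' → P ({o | (fun h : K => X h o) ∈ T} ∩
      {o | (fun h : K => X (h * (g'⁻¹ * g)) o) ∈ T}) = 0)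
    (hp : P {o | (fun h : K => X h o) ∈ T} ≠ 0) :
    (P {o | (fun h : K => X h o) ∈ T}).toReal * (W.card : ℝ) ^ 2 ≤
      1 + Real.log (1 / (P {o | (fun h : K => X h o) ∈ T}).toReal) := by
  classical
  set p : ℝ := (P {o | (fun h : K => X h o) ∈ T}).toReal with hpdef
  have hp0 : 0 < p := ENNReal.toReal_pos hp (measure_ne_top _ _)
  have hp1 : p ≤ 1 := by
    have := prob_le_one (μ := P) (s := {o | (fun h : K => X h o) ∈ T})
    exact ENNReal.toReal_le_of_le_ofReal zero_le_one (by simpa using this)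
  -- the finite set of conflicts
  let V : Finset (FreeGroup (Option α)) := W.image (FreeGroup.map some) ∪
    W.image (fun w => FreeGroup.of none * FreeGroup.map some w)
  have hV : ∀ g, g ∈ VV W ↔ g ∈ V := by
    intro g
    simp only [VV, Set.mem_ofPred_eq, V, Finset.mem_union, Finset.mem_image]
    constructor
    · rintro ⟨w, hw, h | h⟩
      · exact Or.inl ⟨w, hw, h.symm⟩
      · exact Or.inr ⟨w, hw, h.symm⟩
    · rintro (⟨w, hw, h⟩ | ⟨w, hw, h⟩)
      · exact ⟨w, hw, Or.inl h.symm⟩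
      · exact ⟨w, hw, Or.inr h.symm⟩
  let S : Finset (FreeGroup (Option α)) :=
    ((V ×ˢ V).filter (fun x => x.1 ≠ x.2)).image (fun x => x.2⁻¹ * x.1)
  have hS : ∀ s ∈ S, P ({o | (fun h : K => X h o) ∈ T} ∩
      {o | (fun h : K => X (h * s) o) ∈ T}) = 0 := by
    intro s hs
    simp only [S, Finset.mem_image, Finset.mem_filter, Finset.mem_product] at hs
    obtain ⟨⟨g, g'⟩, ⟨⟨h1, h2⟩, h3⟩, rfl⟩ := hs
    exact hconf g ((hV g).2 h1) g' ((hV g').2 h2) h3
  let Wd : Set (FreeGroup (Option α)) := {h | h ∈ K} ∪ {h | ∃ k ∈ K, ∃ s ∈ S, h = k * s}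
  have hWd : Wd.Finite := by
    apply Set.Finite.union
    · exact K.finite_toSet
    · refine ((K ×ˢ S).image (fun x => x.1 * x.2)).finite_toSet.subset ?_
      rintro h ⟨k, hk, s, hs, rfl⟩
      simp only [Finset.coe_image, Finset.coe_product, mem_image, mem_prod, Finset.mem_coe]
      exact ⟨(k, s), ⟨hk, hs⟩, rfl⟩
  obtain ⟨Q, _, _, ψ, hψ⟩ := rf_proof Wd hWd
  apply bin_proof W.card (Finset.card_pos.2 hW) p hp0 hp1
  intro ε hε
  obtain ⟨M₀, hM₀⟩ := conc_proof P X hX hind hid K T S hS Q ε hε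
  refine ⟨M₀, fun M hM => ?_⟩
  apply count_proof ψ W M
  intro τ
  obtain ⟨I, hI1, hI2⟩ := hM₀ M hM (liftAct ψ M τ) (by
    intro x h hh h' hh' heq
    have h2 : (liftAct ψ M τ h x).2 = (liftAct ψ M τ h' x).2 := congrArg Prod.snd heq
    rw [liftAct_snd, liftAct_snd] at h2
    exact hψ hh hh' (mul_right_cancel h2))
  -- choose subsets of the fibres
  have hch : ∀ q : Q, ∃ J ⊆ I.filter (fun x => x.2 = q), J.card = ⌊(p - ε) * M⌋₊ := by
    intro q
    apply Finset.exists_subset_card_eq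
    have h1 := hI2 q
    exact Nat.floor_le_of_le h1
  choose J hJ1 hJ2 using hch
  refine ⟨Finset.univ.biUnion J, ?_, ?_⟩
  · intro q
    rw [← hJ2 q]
    congr 1
    ext x
    simp only [Finset.mem_filter, Finset.mem_biUnion, Finset.mem_univ, true_and]
    constructor
    · rintro ⟨⟨q', hq'⟩, hx⟩
      have h1 := hJ1 q' hq'
      rw [Finset.mem_filter] at h1
      have : q' = q := by rw [← h1.2, hx]
      exact this ▸ hq'
    · intro hx
      have h1 := hJ1 q hx
      rw [Finset.mem_filter] at h1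
      exact ⟨⟨q, hx⟩, h1.2⟩
  · intro g hg g' hg' hgg x hx x' hx' heq
    rw [Finset.mem_biUnion] at hx hx'
    obtain ⟨q, _, hx⟩ := hx
    obtain ⟨q', _, hx'⟩ := hx'
    have hxI : x ∈ I := (Finset.mem_filter.1 (hJ1 q hx)).1
    have hxI' : x' ∈ I := (Finset.mem_filter.1 (hJ1 q' hx')).1
    have hs : g'⁻¹ * g ∈ S := by
      simp only [S, Finset.mem_image, Finset.mem_filter, Finset.mem_product]
      exact ⟨(g, g'), ⟨⟨(hV g).1 hg, (hV g').1 hg'⟩, hgg⟩, rfl⟩
    apply hI1 x hxI _ hs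
    rw [map_mul, map_inv, Equiv.Perm.mul_apply, heq, ← Equiv.Perm.mul_apply, inv_mul_cancel,
      Equiv.Perm.one_apply]
    exact hxI'

end Pool.Agent.BB
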