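import Pool.Agent.Lib_helper34.BB.CELL

open MeasureTheory ProbabilityTheory Set Metric Function Filter
open scoped ENNReal NNReal

namespace Pool.Agent.BB

theorem IsPoisson.three_le {H : Type*} [MeasurableSpace H] {μ : Measure H} {Ω : Type*}
    [MeasurableSpace Ω] {P : Measure Ω} [IsProbabilityMeasure P] {X : Ω → Set H}
    (hX : IsPoisson P μ X) {A B C : Set H} (hA : MeasurableSet A) (hB : MeasurableSet B)
    (hC : MeasurableSet C) (hAB : Disjoint A B) (hAC : Disjoint A C) (hBC : Disjoint B C)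
    (hfA : μ A ≠ ∞) (hfB : μ B ≠ ∞) (hfC : μ C ≠ ∞) :
    P {ω | cnt (X ω) A ≠ 0 ∧ cnt (X ω) B ≠ 0 ∧ cnt (X ω) C ≠ 0} ≤ μ A * μ B * μ C := by
  have h := hX.all_ne_zero_le ![A, B, C] (by intro i; fin_cases i <;> simpa)
    (by
      intro i j hij
      fin_cases i <;> fin_cases j <;> simp_all [Function.onFun, disjoint_comm])
    (by intro i; fin_cases i <;> simpa)
  have h1 : {ω | ∀ i : Fin 3, cnt (X ω) (![A, B, C] i) ≠ 0} =
      {ω | cnt (X ω) A ≠ 0 ∧ cnt (X ω) B ≠ 0 ∧ cnt (X ω) C ≠ 0} := by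
    ext ω
    simp [Fin.forall_fin_succ]
  rw [h1, Fin.prod_univ_three] at h
  simpa using h

theorem tie_proof {H : Type} [MetricSpace H] [ProperSpace H] [MeasurableSpace H] [BorelSpace H]
    {μ : Measure H} (hμ : Nice μ) {Ω : Type*} [MeasurableSpace Ω]
    (P : Measure Ω) [IsProbabilityMeasure P] (X : Ω → Set H) (hX : IsPoisson P μ X) :
    ∀ᵐ ω ∂P, ∀ x ∈ X ω, ∀ y ∈ X ω, ∀ z ∈ X ω, x ≠ y → x ≠ z → y ≠ z →
      dist x y ≠ dist x z := by
  classical
  rcases isEmpty_or_nonempty H with hE | ⟨⟨o⟩⟩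
  · exact Eventually.of_forall fun ω x => hE.elim x
  have key : ∀ N : ℕ, P {ω | ∃ x ∈ X ω, ∃ y ∈ X ω, ∃ z ∈ X ω, dist o x ≤ N ∧ dist o y ≤ N ∧
      dist o z ≤ N ∧ x ≠ y ∧ x ≠ z ∧ y ≠ z ∧ dist x y = dist x z} = 0 := by
    intro N
    set M : ℝ≥0∞ := μ (closedBall o (N + 1)) with hM
    have hMfin : M ≠ ∞ := (hμ.fin o (N + 1)).ne
    have main : ∀ η' : ℝ, 0 < η' → P {ω | ∃ x ∈ X ω, ∃ y ∈ X ω, ∃ z ∈ X ω, dist o x ≤ N ∧
        dist o y ≤ N ∧ dist o z ≤ N ∧ x ≠ y ∧ x ≠ z ∧ y ≠ z ∧ dist x y = dist x z} ≤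
        (M + M * M) * ENNReal.ofReal η' := by
      intro η' hη'
      obtain ⟨ε, hε, hann⟩ := hμ.ann (2 * N + 4) η' hη'
      obtain ⟨c, hcm, hcd, hcU, hcdiam, hclf⟩ := cells_proof (H := H) (min (ε / 8) 1)
        (lt_min (by positivity) one_pos)
      have hd1 : ∀ i, ∀ x ∈ c i, ∀ y ∈ c i, dist x y ≤ ε / 8 := fun i x hx y hy =>
        (hcdiam i x hx y hy).trans (min_le_left _ _)
      have hd2 : ∀ i, ∀ x ∈ c i, ∀ y ∈ c i, dist x y ≤ 1 := fun i x hx y hy =>
        (hcdiam i x hx y hy).trans (min_le_right _ _)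
      set I : Finset ℕ := (hclf o N).toFinset with hI
      have hImem : ∀ i, i ∈ I ↔ (c i ∩ closedBall o N).Nonempty := by
        intro i
        rw [hI, Set.Finite.mem_toFinset]
        rfl
      have hIsub : ∀ i ∈ I, c i ⊆ closedBall o (N + 1) := by
        intro i hi y hy
        obtain ⟨x, hx1, hx2⟩ := (hImem i).1 hi
        rw [mem_closedBall] at hx2 ⊢
        have := dist_triangle y x o
        have := hd2 i y hy x hx1
        linarith
      have hfin : ∀ i ∈ I, μ (c i) ≠ ∞ := fun i hi =>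
        ((measure_mono (hIsub i hi)).trans_lt (hμ.fin o (N + 1))).ne
      have hsum : ∑ i ∈ I, μ (c i) ≤ M := by
        rw [← measure_biUnion_finset (fun i _ j _ hij => hcd hij) (fun i _ => hcm i)]
        exact measure_mono (iUnion₂_subset hIsub)
      have hsmall : ∀ i ∈ I, μ (c i) ≤ ENNReal.ofReal η' := by
        intro i hi
        obtain ⟨x, hx1, -⟩ := (hImem i).1 hi
        refine (measure_mono ?_).trans (hann x 0 (by positivity))
        intro y hy
        refine ⟨dist_nonneg, ?_⟩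
        have := hd1 i x hx1 y hy
        linarith
      let T : ℕ → ℕ → ℕ → Prop := fun i j k => i ≠ j ∧ i ≠ k ∧ j ≠ k ∧
        ∃ x ∈ c i, ∃ y ∈ c j, ∃ z ∈ c k, dist x y = dist x z
      have hTsum : ∀ i ∈ I, ∀ j ∈ I, ∑ k ∈ I.filter (T i j), μ (c k) ≤ ENNReal.ofReal η' := by
        intro i hi j hj
        obtain ⟨x₀, hx₀, hx₀'⟩ := (hImem i).1 hi
        obtain ⟨y₀, hy₀, hy₀'⟩ := (hImem j).1 hj
        rw [← measure_biUnion_finset (fun i _ j _ hij => hcd hij) (fun i _ => hcm i)]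
        refine (measure_mono ?_).trans (hann x₀ (dist x₀ y₀ - ε / 2) ?_)
        · refine iUnion₂_subset fun k hk z' hz' => ?_
          obtain ⟨-, -, -, -, x, hx, y, hy, z, hz, hxyz⟩ := Finset.mem_filter.1 hk
          have h1 := hd1 i x hx x₀ hx₀
          have h2 := hd1 j y hy y₀ hy₀
          have h3 := hd1 k z hz z' hz'
          have h4 : dist x₀ z' ≤ dist x x₀ + dist x z + dist z z' := by
            have := dist_triangle4 x₀ x z z'
            rwa [dist_comm x₀ x] at this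
          have h5 : dist x y ≤ dist x x₀ + dist x₀ y₀ + dist y y₀ := by
            have := dist_triangle4 x x₀ y₀ y
            rwa [dist_comm y₀ y] at this
          have h6 : dist x₀ y₀ ≤ dist x x₀ + dist x y + dist y y₀ := by
            have := dist_triangle4 x₀ x y y₀
            rwa [dist_comm x₀ x] at this
          have h7 : dist x z ≤ dist x x₀ + dist x₀ z' + dist z z' := by
            have := dist_triangle4 x x₀ z' z
            rwa [dist_comm z' z] at this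
          exact ⟨by linarith, by linarith⟩
        · have h1 := mem_closedBall.1 hx₀'
          have h2 := mem_closedBall.1 hy₀'
          have h3 := dist_triangle_right x₀ y₀ o
          linarith
      have hsub : {ω | ∃ x ∈ X ω, ∃ y ∈ X ω, ∃ z ∈ X ω, dist o x ≤ N ∧ dist o y ≤ N ∧
          dist o z ≤ N ∧ x ≠ y ∧ x ≠ z ∧ y ≠ z ∧ dist x y = dist x z} ⊆
          (⋃ i ∈ I, {ω | 2 ≤ cnt (X ω) (c i)}) ∪
          ⋃ i ∈ I, ⋃ j ∈ I, ⋃ k ∈ I.filter (T i j),
            {ω | cnt (X ω) (c i) ≠ 0 ∧ cnt (X ω) (c j) ≠ 0 ∧ cnt (X ω) (c k) ≠ 0 ∧ T i j k} := by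
        rintro ω ⟨x, hx, y, hy, z, hz, hx1, hy1, hz1, hxy, hxz, hyz, heq⟩
        have hcell : ∀ u : H, dist o u ≤ N → ∃ i ∈ I, u ∈ c i := by
          intro u hu
          have : u ∈ ⋃ i, c i := hcU ▸ mem_univ u
          obtain ⟨i, hi⟩ := mem_iUnion.1 this
          exact ⟨i, (hImem i).2 ⟨u, hi, by rwa [mem_closedBall, dist_comm]⟩, hi⟩
        obtain ⟨i, hi, hxi⟩ := hcell x hx1
        obtain ⟨j, hj, hyj⟩ := hcell y hy1
        obtain ⟨k, hk, hzk⟩ := hcell z hz1
        have htwo : ∀ u ∈ X ω, ∀ v ∈ X ω, u ≠ v → ∀ l ∈ I, u ∈ c l → v ∈ c l →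
            ω ∈ (⋃ i ∈ I, {ω | 2 ≤ cnt (X ω) (c i)}) := by
          intro u hu v hv huv l hl hul hvl
          simp only [mem_iUnion]
          refine ⟨l, hl, ?_⟩
          show (2 : ℕ∞) ≤ (X ω ∩ c l).encard
          rw [← Set.encard_pair huv]
          apply Set.encard_le_encard
          rintro w (rfl | rfl)
          · exact ⟨hu, hul⟩
          · exact ⟨hv, hvl⟩
        by_cases hij : i = j
        · exact Or.inl (htwo x hx y hy hxy i hi hxi (hij ▸ hyj))
        by_cases hik : i = k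
        · exact Or.inl (htwo x hx z hz hxz i hi hxi (hik ▸ hzk))
        by_cases hjk : j = k
        · exact Or.inl (htwo y hy z hz hyz j hj hyj (hjk ▸ hzk))
        right
        have hne : ∀ u ∈ X ω, ∀ l, u ∈ c l → cnt (X ω) (c l) ≠ 0 := by
          intro u hu l hul
          rw [cnt, Set.encard_ne_zero]
          exact ⟨u, hu, hul⟩
        have hT : T i j k := ⟨hij, hik, hjk, x, hxi, y, hyj, z, hzk, heq⟩
        simp only [mem_iUnion]
        exact ⟨i, hi, j, hj, k, Finset.mem_filter.2 ⟨hk, hT⟩, hne x hx i hxi, hne y hy j hyj,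
          hne z hz k hzk, hT⟩
      refine (measure_mono hsub).trans ((measure_union_le _ _).trans ?_)
      rw [add_mul]
      gcongr
      · calc P (⋃ i ∈ I, {ω | 2 ≤ cnt (X ω) (c i)})
            ≤ ∑ i ∈ I, P {ω | 2 ≤ cnt (X ω) (c i)} := measure_biUnion_finset_le _ _
          _ ≤ ∑ i ∈ I, μ (c i) * ENNReal.ofReal η' := Finset.sum_le_sum fun i hi =>
              (hX.two_le (hcm i) (hfin i hi)).trans (mul_le_mul_right (hsmall i hi) _)
          _ = (∑ i ∈ I, μ (c i)) * ENNReal.ofReal η' := by rw [Finset.sum_mul]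
          _ ≤ M * ENNReal.ofReal η' := by gcongr
      · calc P (⋃ i ∈ I, ⋃ j ∈ I, ⋃ k ∈ I.filter (T i j),
            {ω | cnt (X ω) (c i) ≠ 0 ∧ cnt (X ω) (c j) ≠ 0 ∧ cnt (X ω) (c k) ≠ 0 ∧ T i j k})
            ≤ ∑ i ∈ I, P (⋃ j ∈ I, ⋃ k ∈ I.filter (T i j),
              {ω | cnt (X ω) (c i) ≠ 0 ∧ cnt (X ω) (c j) ≠ 0 ∧ cnt (X ω) (c k) ≠ 0 ∧
                T i j k}) := measure_biUnion_finset_le _ _
          _ ≤ ∑ i ∈ I, ∑ j ∈ I, P (⋃ k ∈ I.filter (T i j),
              {ω | cnt (X ω) (c i) ≠ 0 ∧ cnt (X ω) (c j) ≠ 0 ∧ cnt (X ω) (c k) ≠ 0 ∧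
                T i j k}) := Finset.sum_le_sum fun i _ => measure_biUnion_finset_le _ _
          _ ≤ ∑ i ∈ I, ∑ j ∈ I, ∑ k ∈ I.filter (T i j), μ (c i) * μ (c j) * μ (c k) := by
              refine Finset.sum_le_sum fun i hi => Finset.sum_le_sum fun j hj => ?_
              refine (measure_biUnion_finset_le _ _).trans (Finset.sum_le_sum fun k hk => ?_)
              obtain ⟨hkI, hT⟩ := Finset.mem_filter.1 hk
              refine (measure_mono ?_).trans (hX.three_le (hcm i) (hcm j) (hcm k)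
                (hcd hT.1) (hcd hT.2.1) (hcd hT.2.2.1) (hfin i hi) (hfin j hj) (hfin k hkI))
              rintro ω ⟨h1, h2, h3, -⟩
              exact ⟨h1, h2, h3⟩
          _ ≤ ∑ i ∈ I, ∑ j ∈ I, μ (c i) * μ (c j) * ENNReal.ofReal η' := by
              refine Finset.sum_le_sum fun i hi => Finset.sum_le_sum fun j hj => ?_
              rw [← Finset.mul_sum]
              gcongr
              exact hTsum i hi j hj
          _ = (∑ i ∈ I, μ (c i)) * (∑ j ∈ I, μ (c j)) * ENNReal.ofReal η' := by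
              rw [Finset.sum_mul_sum, Finset.sum_mul]
              refine Finset.sum_congr rfl fun i _ => ?_
              rw [Finset.sum_mul]
          _ ≤ M * M * ENNReal.ofReal η' := by gcongr
    by_contra hne
    set p := P {ω | ∃ x ∈ X ω, ∃ y ∈ X ω, ∃ z ∈ X ω, dist o x ≤ N ∧
        dist o y ≤ N ∧ dist o z ≤ N ∧ x ≠ y ∧ x ≠ z ∧ y ≠ z ∧ dist x y = dist x z} with hp
    have hp0 : 0 < p.toReal := ENNReal.toReal_pos hne (measure_ne_top _ _)
    set D := (M + M * M).toReal with hD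
    have hD0 : 0 ≤ D := ENNReal.toReal_nonneg
    have hDfin : M + M * M ≠ ∞ := by finiteness
    have h1 := main (p.toReal / (2 * (D + 1))) (by positivity)
    have h2 := ENNReal.toReal_mono (ENNReal.mul_ne_top hDfin ENNReal.ofReal_ne_top) h1
    rw [ENNReal.toReal_mul, ENNReal.toReal_ofReal (by positivity)] at h2
    have h3 : D * (p.toReal / (2 * (D + 1))) < p.toReal := by
      rw [mul_div_assoc', div_lt_iff₀ (by positivity)]
      nlinarith
    linarith
  have h : ∀ᵐ ω ∂P, ∀ N : ℕ, ¬ (∃ x ∈ X ω, ∃ y ∈ X ω, ∃ z ∈ X ω, dist o x ≤ N ∧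
      dist o y ≤ N ∧ dist o z ≤ N ∧ x ≠ y ∧ x ≠ z ∧ y ≠ z ∧ dist x y = dist x z) := by
    rw [ae_all_iff]
    intro N
    rw [ae_iff]
    simpa using key N
  filter_upwards [h] with ω hω x hx y hy z hz hxy hxz hyz heq
  obtain ⟨N, hN⟩ := exists_nat_ge (max (dist o x) (max (dist o y) (dist o z)))
  exact hω N ⟨x, hx, y, hy, z, hz, (le_max_left _ _).trans hN,
    ((le_max_left _ _).trans (le_max_right _ _)).trans hN,
    ((le_max_right _ _).trans (le_max_right _ _)).trans hN, hxy, hxz, hyz, heq⟩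

end Pool.Agent.BB
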