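import Pool.Agent.Lib_helper34.BB.LIFT
import Pool.Agent.Lib_helper34.BB.CELL
import Pool.Agent.Lib_helper34.BB.TIE
import Pool.Agent.Lib_helper86.BB.CHAIN
import Pool.Agent.Lib_helper89.BB.POP
import Pool.Agent.Lib_helper89.BB.EVOL
import Pool.Agent.Lib_helper89.BB.STAB
import Pool.Agent.Lib_helper99.BB.PAT
import Pool.Agent.Lib_helper99.BB.LAB

open MeasureTheory ProbabilityTheory Set Metric Function
open scoped ENNReal NNReal

namespace Pool.Agent.BB

theorem num_proof (p w : ℝ) (hw : 1 ≤ w) (hp : 0 < p) (hp1 : p ≤ 1)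
    (h : p * w ^ 2 ≤ 1 + Real.log (1 / p)) : p ≤ (1 + 2 * Real.log w) / w ^ 2 := by
  by_contra hlt
  push Not at hlt
  have hw0 : 0 < w := by linarith
  have hlog : 0 ≤ Real.log w := Real.log_nonneg hw
  have h1 : 1 + 2 * Real.log w < p * w ^ 2 := by
    rwa [div_lt_iff₀ (by positivity)] at hlt
  have h2 : Real.log (1 / p) < 2 * Real.log w := by
    have h3 : 1 / p < w ^ 2 := by
      rw [div_lt_iff₀ hp]
      nlinarith
    calc Real.log (1 / p) < Real.log (w ^ 2) := Real.log_lt_log (by positivity) h3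
      _ = 2 * Real.log w := by rw [Real.log_pow]; norm_num
  linarith

theorem cnt_image {H : Type*} (g : Equiv.Perm H) (C B : Set H) :
    cnt (g '' C) B = cnt C (g ⁻¹' B) := by
  unfold cnt
  rw [← g.injective.encard_image (C ∩ g ⁻¹' B), image_inter_preimage]

/-- the cells -/
theorem exists_cells {H : Type} [MetricSpace H] [ProperSpace H] [MeasurableSpace H]
    [BorelSpace H] {μ : Measure H} (hμ : Nice μ) (F : Set H) (hF : MeasurableSet F) (o : H) :
    ∃ q : ℕ → Set H, (∀ j, q j ⊆ F) ∧ (∀ j, MeasurableSet (q j)) ∧ (∀ j, μ (q j) ≠ ∞) ∧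
      (∀ x ∈ F, ∀ ε > 0, ∃ j, x ∈ q j ∧ ∀ y ∈ q j, dist x y < ε) ∧
      (∀ (x : H) (R : ℝ), ∃ j, F ∩ closedBall x R ⊆ q j) ∧
      (∀ j, ∃ (x : H) (R : ℝ), q j ⊆ closedBall x R) ∧
      (∀ i j, ∃ k, q k = q i ∩ q j) := by
  classical
  have : Nonempty H := ⟨o⟩
  let D : ℕ → H := TopologicalSpace.denseSeq H
  have hD : DenseRange D := TopologicalSpace.denseRange_denseSeq H
  let ι := {s : Finset (ℕ × ℚ) // s.Nonempty}
  have : Nonempty ι := ⟨⟨{(0, 0)}, Finset.singleton_nonempty _⟩⟩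
  obtain ⟨f, hf⟩ := exists_surjective_nat ι
  let Q : ι → Set H := fun s => F ∩ ⋂ a ∈ s.1, ball (D a.1) (a.2 : ℝ)
  have hb : ∀ s : ι, ∃ (x : H) (R : ℝ), Q s ⊆ closedBall x R := by
    intro s
    obtain ⟨a, ha⟩ := s.2
    refine ⟨D a.1, a.2, fun y hy => ?_⟩
    have := hy.2
    simp only [mem_iInter] at this
    exact ball_subset_closedBall (this a ha)
  refine ⟨fun j => Q (f j), fun j => inter_subset_left, fun j => ?_, fun j => ?_, ?_, ?_,
    fun j => hb (f j), ?_⟩
  · exact hF.inter (Finset.measurableSet_biInter _ fun a _ => measurableSet_ball)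
  · obtain ⟨x, R, h⟩ := hb (f j)
    exact ((measure_mono h).trans_lt (hμ.fin x R)).ne
  · intro x hx ε hε
    obtain ⟨a, ha⟩ := hD.exists_dist_lt x (show (0:ℝ) < ε / 2 by positivity)
    obtain ⟨b, hb1, hb2⟩ := exists_rat_btwn ha
    obtain ⟨j, hj⟩ := hf ⟨{(a, b)}, Finset.singleton_nonempty _⟩
    refine ⟨j, ?_, ?_⟩
    · simp only [hj, Q]
      refine ⟨hx, ?_⟩
      simp only [Finset.mem_singleton, iInter_iInter_eq_left, mem_ball]
      exact hb1
    · intro y hy
      simp only [hj, Q] at hy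
      have h2 := hy.2
      simp only [Finset.mem_singleton, iInter_iInter_eq_left, mem_ball] at h2
      calc dist x y ≤ dist x (D a) + dist (D a) y := dist_triangle _ _ _
        _ < ε / 2 + ε / 2 := by
          rw [dist_comm (D a) y]
          exact add_lt_add ha (h2.trans hb2)
        _ = ε := by ring
  · intro x R
    obtain ⟨b, hb1⟩ := exists_rat_gt (R + dist x (D 0))
    obtain ⟨j, hj⟩ := hf ⟨{(0, b)}, Finset.singleton_nonempty _⟩
    refine ⟨j, ?_⟩
    intro y hy
    simp only [hj, Q]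
    refine ⟨hy.1, ?_⟩
    simp only [Finset.mem_singleton, iInter_iInter_eq_left, mem_ball]
    calc dist y (D 0) ≤ dist y x + dist x (D 0) := dist_triangle _ _ _
      _ ≤ R + dist x (D 0) := by
        have := mem_closedBall.1 hy.2
        linarith
      _ < b := hb1
  · intro i j
    obtain ⟨k, hk⟩ := hf ⟨(f i).1 ∪ (f j).1, (f i).2.mono Finset.subset_union_left⟩
    refine ⟨k, ?_⟩
    simp only [hk, Q]
    ext y
    simp only [mem_inter_iff, mem_iInter, Finset.mem_union]
    constructor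
    · rintro ⟨h1, h2⟩
      exact ⟨⟨h1, fun a ha => h2 a (Or.inl ha)⟩, ⟨h1, fun a ha => h2 a (Or.inr ha)⟩⟩
    · rintro ⟨⟨h1, h2⟩, ⟨_, h3⟩⟩
      refine ⟨h1, fun a ha => ?_⟩
      rcases ha with ha | ha
      · exact h2 a ha
      · exact h3 a ha

theorem main_proof {H : Type} [MetricSpace H] [ProperSpace H] [MeasurableSpace H]
    [BorelSpace H] {μ : Measure H} (hμ : Nice μ) {α : Type} [Fintype α] [DecidableEq α]
    (θ : FreeGroup (Option α) →* Equiv.Perm H) (hiso : ∀ γ, Isometry (θ γ))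
    (hmp : ∀ γ, MeasurePreserving (θ γ) μ μ) (F : Set H) (hF : MeasurableSet F)
    (hFD : FD θ F) (hlf : ∀ (x : H) (R : ℝ), {γ | ∃ z, dist x z ≤ R ∧ θ γ z ∈ F}.Finite)
    (o : H) (r : ℝ) (hr : 0 < r) (hball : ball o r ⊆ F) (t : ℝ≥0)
    (W : Finset (FreeGroup α)) (hW : W.Nonempty)
    (hdisp : ∀ w ∈ W, dist o (θ (FreeGroup.map some w) o) +
      dist o (θ (FreeGroup.of none) o) + r ≤ t)
    {Ω : Type*} [MeasurableSpace Ω] (P : Measure Ω) [IsProbabilityMeasure P]
    (X : Ω → Set H) (hX : IsPoisson P μ X) :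
    P {ω | ∃ x ∈ ball o r, x ∈ alive (X ω) t} ≤
      ENNReal.ofReal ((1 + 2 * Real.log W.card) / (W.card : ℝ) ^ 2) := by
  classical
  -- displacement of the elements of VV W
  have hdV : ∀ g ∈ VV W, dist o (θ g o) ≤ t - r := by
    rintro g ⟨w, hw, rfl | rfl⟩
    · have := hdisp w hw
      have h2 : 0 ≤ dist o (θ (FreeGroup.of none) o) := dist_nonneg
      linarith
    · have := hdisp w hw
      rw [map_mul, Equiv.Perm.mul_apply]
      calc dist o (θ (FreeGroup.of none) (θ (FreeGroup.map some w) o))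
          ≤ dist o (θ (FreeGroup.of none) o) +
            dist (θ (FreeGroup.of none) o)
              (θ (FreeGroup.of none) (θ (FreeGroup.map some w) o)) := dist_triangle _ _ _
        _ = dist o (θ (FreeGroup.of none) o) + dist o (θ (FreeGroup.map some w) o) := by
          rw [(hiso _).dist_eq]
        _ ≤ t - r := by linarith
  -- the good event
  have hgood : ∀ᵐ ω ∂P, Good (X ω) := by
    filter_upwards [lf_proof hμ P X hX, tie_proof hμ P X hX, chain_proof hμ P X hX]
      with ω h1 h2 h3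
    exact ⟨h1, h2, h3⟩
  obtain ⟨q, hqF, hqm, hqfin, hq1, hq2, hq3, hq4⟩ := exists_cells hμ F hF o
  have : Countable (FreeGroup (Option α)) := (FreeGroup.toWord_injective).countable
  obtain ⟨e, he⟩ := exists_surjective_nat (FreeGroup (Option α))
  -- labels
  let Lab : ∀ k : ℕ, FreeGroup (Option α) → Ω → (Fin k → ℕ∞) :=
    fun k γ ω j => cnt (X ω) (θ γ ⁻¹' q j)
  let K : ∀ k : ℕ, Finset (FreeGroup (Option α)) := fun k => (Finset.range k).image e
  let pat : ∀ k : ℕ, Set H → (K k → Fin k → ℕ∞) := fun k C h j => cnt C (θ h ⁻¹' q j)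
  have hpat : ∀ k C C', pat k C = pat k C' ↔ PatEq θ e q k C C' := by
    intro k C C'
    constructor
    · intro h i hi j hj
      have h1 := congrFun (congrFun h ⟨e i, Finset.mem_image_of_mem _ (Finset.mem_range.2 hi)⟩)
        ⟨j, hj⟩
      exact h1
    · intro h
      funext ⟨g, hg⟩ ⟨j, hj⟩
      obtain ⟨i, hi, rfl⟩ := Finset.mem_image.1 hg
      exact h i (Finset.mem_range.1 hi) j hj
  let E : Set H → Prop := fun C => ∃ x ∈ ball o r, x ∈ alive C t
  let T : ∀ k : ℕ, Set (K k → Fin k → ℕ∞) := fun k => {u | ∀ C', pat k C' = u → E C'}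
  let O : ℕ → Set Ω := fun k => {ω | (fun h : K k => Lab k h ω) ∈ T k}
  have hO : ∀ k ω, ω ∈ O k ↔ ∀ C', PatEq θ e q k (X ω) C' → E C' := by
    intro k ω
    constructor
    · intro h C' hC'
      exact h C' ((hpat k _ _).2 hC').symm
    · intro h C' hC'
      exact h C' ((hpat k _ _).1 hC'.symm)
  have hmono : Monotone O := by
    intro k l hkl ω hω
    rw [hO] at hω ⊢
    intro C' hC'
    exact hω C' (fun i hi j hj => hC' i (hi.trans_le hkl) j (hj.trans_le hkl))
  have hEO : {ω | ∃ x ∈ ball o r, x ∈ alive (X ω) t} ≤ᵐ[P] ⋃ k, O k := by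
    filter_upwards [hgood] with ω hω hE
    obtain ⟨x, hxB, hx⟩ := hE
    obtain ⟨R, ε₀, hε₀, h1⟩ := stab_alive_proof hω o isOpen_ball hxB hx
    obtain ⟨ε₁, hε₁, h2⟩ := near_proof θ hiso F hFD hlf e he q hqF hq1 hq2 hq3 hq4 hω.lf o R
    obtain ⟨k, hk⟩ := h2 (min ε₀ ε₁) (lt_min hε₀ hε₁) (min_le_right _ _)
    refine mem_iUnion.2 ⟨k, (hO k ω).2 fun C' hC' => ?_⟩
    obtain ⟨x', h3, h4⟩ := h1 (min ε₀ ε₁) (lt_min hε₀ hε₁) (min_le_left _ _) C' (hk C' hC')
    exact ⟨x', h3, h4⟩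
  refine (measure_mono_ae hEO).trans ?_
  rw [hmono.measure_iUnion]
  refine iSup_le fun k => ?_
  by_cases hzero : P (O k) = 0
  · rw [hzero]
    exact bot_le
  have hLm : ∀ γ, Measurable (Lab k γ) := by
    intro γ
    refine measurable_pi_lambda _ fun j => ?_
    exact hX.meas _ ((hmp γ).measurable (hqm j))
  obtain ⟨hind, hid⟩ := labels_proof P X hX θ hmp F hFD k (fun j => q j) (fun j => hqm j)
    (fun j => hqF j) (fun j => hqfin j)
  have hconf : ∀ g ∈ VV W, ∀ g' ∈ VV W, g ≠ g' → P ({ω | (fun h : K k => Lab k h ω) ∈ T k} ∩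
      {ω | (fun h : K k => Lab k (h * (g'⁻¹ * g)) ω) ∈ T k}) = 0 := by
    intro g hg g' hg' hgg
    refine measure_mono_null ?_ (ae_iff.1 hgood)
    rintro ω ⟨h1, h2⟩ hG
    obtain ⟨x, hx1, hx2⟩ := h1 (X ω) rfl
    obtain ⟨x', hx1', hx2'⟩ := h2 (θ (g'⁻¹ * g) '' X ω) (by
      funext h j
      simp only [pat, Lab]
      rw [cnt_image, map_mul θ (h : FreeGroup (Option α)), Equiv.Perm.coe_mul, preimage_comp])
    rw [alive_image_proof _ (hiso _)] at hx2'
    obtain ⟨y, hy, rfl⟩ := hx2'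
    have hne : x ≠ y := by
      rintro rfl
      have h3 := hFD.uniq x 1 (g'⁻¹ * g) (by simpa using hball hx1) (hball hx1')
      apply hgg
      rw [eq_comm, inv_mul_eq_one] at h3
      exact h3.symm
    have hsep := alive_sep_proof hG hx2 hy hne
    have h4 : dist (θ (g'⁻¹ * g) o) o ≤ 2 * (t - r) := by
      have h5 : dist (θ (g'⁻¹ * g) o) o = dist (θ g o) (θ g' o) := by
        rw [← (hiso g').dist_eq (θ (g'⁻¹ * g) o) o, ← Equiv.Perm.mul_apply, ← map_mul,
          mul_inv_cancel_left]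
      rw [h5]
      calc dist (θ g o) (θ g' o) ≤ dist (θ g o) o + dist o (θ g' o) := dist_triangle _ _ _
        _ ≤ (t - r) + (t - r) := by
          rw [dist_comm (θ g o) o]
          exact add_le_add (hdV g hg) (hdV g' hg')
        _ = 2 * (t - r) := by ring
    have h6 : dist x y < 2 * t := by
      calc dist x y = dist (θ (g'⁻¹ * g) x) (θ (g'⁻¹ * g) y) := ((hiso _).dist_eq _ _).symm
        _ ≤ dist (θ (g'⁻¹ * g) x) (θ (g'⁻¹ * g) o) + dist (θ (g'⁻¹ * g) o) o +
            dist o (θ (g'⁻¹ * g) y) := dist_triangle4 _ _ _ _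
        _ < r + 2 * (t - r) + r := by
          rw [(hiso _).dist_eq, dist_comm o]
          have h7 := mem_ball.1 hx1
          have h8 := mem_ball.1 hx1'
          linarith
        _ = 2 * t := by ring
    linarith
  have hlift := lift_proof P (Lab k) hLm hind hid (K k) (T k) W hW hconf hzero
  have hp0 : 0 < (P (O k)).toReal := ENNReal.toReal_pos hzero (measure_ne_top _ _)
  have hp1 : (P (O k)).toReal ≤ 1 :=
    ENNReal.toReal_le_of_le_ofReal zero_le_one (by simpa using prob_le_one)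
  have hnum := num_proof (P (O k)).toReal W.card (by exact_mod_cast hW.card_pos) hp0 hp1 hlift
  rw [← ENNReal.ofReal_toReal (measure_ne_top P (O k))]
  exact ENNReal.ofReal_le_ofReal hnum

end Pool.Agent.BB
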